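import Pool.Agent.N299.ND.Stm

/-!
# ND/AMP: amplification of elements through a matrix block (helper400)
-/

set_option autoImplicit false

open scoped Topology Matrix.Norms.L2Operator

noncomputable section

namespace Pool.Agent.N400.ND

open Pool.Agent.N299 Pool.Agent.N299.ND

/-- comparison of powers -/
lemma root_bound {a s c : ℝ} (hs : 0 < s) (h : ∀ k : ℕ, a ^ (2 ^ (k + 1)) ≤ c * s ^ (2 ^ (k + 1))) :
    a ≤ s := by
  by_contra hcon
  rw [not_le] at hcon
  have hr : 1 < a / s := (one_lt_div hs).2 hcon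
  obtain ⟨n, hn⟩ := pow_unbounded_of_one_lt c hr
  have h1 : (a / s) ^ n ≤ (a / s) ^ (2 ^ (n + 1)) := by
    refine pow_le_pow_right₀ hr.le ?_
    have h2 : n + 1 < 2 ^ (n + 1) := Nat.lt_two_pow_self
    omega
  have h2 := h n
  have h4 : (a / s) ^ (2 ^ (n + 1)) * s ^ (2 ^ (n + 1)) = a ^ (2 ^ (n + 1)) := by
    rw [← mul_pow, div_mul_cancel₀ _ hs.ne']
  have h3 : c * s ^ (2 ^ (n + 1)) < (a / s) ^ n * s ^ (2 ^ (n + 1)) :=
    mul_lt_mul_of_pos_right hn (pow_pos hs _)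
  have h5 : (a / s) ^ n * s ^ (2 ^ (n + 1)) ≤ (a / s) ^ (2 ^ (n + 1)) * s ^ (2 ^ (n + 1)) :=
    mul_le_mul_of_nonneg_right h1 (pow_pos hs _).le
  linarith

lemma mu_mul_same {n : ℕ} (k l m : Fin (n + 1)) : (mu k l : M n) * mu l m = mu k m := by
  unfold mu
  rw [Matrix.single_mul_single_same, one_mul]

lemma mu_mul_ne {n : ℕ} (k l l' m : Fin (n + 1)) (h : l ≠ l') : (mu k l : M n) * mu l' m = 0 := by
  unfold mu
  rw [Matrix.single_mul_single_of_ne (h := h)]

lemma star_mu {n : ℕ} (k l : Fin (n + 1)) : star (mu k l : M n) = mu l k := by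
  unfold mu
  rw [Matrix.star_eq_conjTranspose, Matrix.conjTranspose_single, star_one]

lemma mul_mu {n : ℕ} (X : M n) (k m : Fin (n + 1)) : X * mu k m = ∑ i, X i k • (mu i m : M n) := by
  ext a b
  rw [Matrix.sum_apply]
  simp only [mu, Matrix.mul_apply, Matrix.smul_apply, Matrix.single_apply, smul_eq_mul, mul_ite,
    mul_one, mul_zero]
  by_cases hb : m = b
  · simp [hb]
  · simp [hb]

lemma mu_mul {n : ℕ} (X : M n) (m k : Fin (n + 1)) : mu m k * X = ∑ l, X k l • (mu m l : M n) := by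
  ext a b
  rw [Matrix.sum_apply]
  simp only [mu, Matrix.mul_apply, Matrix.smul_apply, Matrix.single_apply, smul_eq_mul, mul_ite,
    mul_one, mul_zero, ite_mul, one_mul, zero_mul]
  by_cases hb : m = a
  · simp [hb]
  · simp [hb]

lemma sum_mu {n : ℕ} : ∑ k, (mu k k : M n) = 1 := by
  ext a b
  rw [Matrix.sum_apply]
  simp only [mu, Matrix.single_apply, Matrix.one_apply]
  by_cases h : a = b
  · simp [h]
  · rw [if_neg h]
    refine Finset.sum_eq_zero fun i _ => ?_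
    rw [if_neg]
    rintro ⟨h1, h2⟩
    exact h (h1.symm.trans h2)

section

variable {n : ℕ} {B : Type} [CStarAlgebra B] {φ : M n →ₗ[ℂ] B}

/-- `∑ X_kl P_k0 y P_0l` -/
def G (φ : M n →ₗ[ℂ] B) (X : M n) (y : B) : B :=
  ∑ k, ∑ l, X k l • (φ (mu k 0) * y * φ (mu 0 l))

lemma PP (h : OZ φ) (k l m : Fin (n + 1)) : φ (mu k l) * φ (mu l m) = φ 1 * φ (mu k m) := by
  rw [h.mul, mu_mul_same]

lemma PP0 (h : OZ φ) (k l l' m : Fin (n + 1)) (hl : l ≠ l') : φ (mu k l) * φ (mu l' m) = 0 := by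
  rw [h.mul, mu_mul_ne _ _ _ _ hl, map_zero, mul_zero]

/-- the fundamental identity -/
lemma PQ (h : OZ φ) (l : Fin (n + 1)) : φ (mu 0 l) * φ (mu l 0) = φ (mu 0 0) * φ (mu 0 0) := by
  rw [PP h, PP h]

lemma hP (h : OZ φ) (l : Fin (n + 1)) : φ 1 * φ (mu 0 l) = φ (mu 0 0) * φ (mu 0 l) := by
  rw [PP h]

lemma Ph (h : OZ φ) (l : Fin (n + 1)) : φ (mu l 0) * φ 1 = φ (mu l 0) * φ (mu 0 0) := by
  rw [PP h, h.comm]

lemma G_mul (h : OZ φ) (X X' : M n) (y y' : B) :
    G φ X y * G φ X' y' = G φ (X * X') (y * (φ (mu 0 0) * φ (mu 0 0)) * y') := by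
  unfold G
  rw [Finset.sum_mul]
  refine Finset.sum_congr rfl fun k _ => ?_
  rw [Finset.sum_mul]
  have h1 : ∀ l, X k l • (φ (mu k 0) * y * φ (mu 0 l)) *
      (∑ k', ∑ l', X' k' l' • (φ (mu k' 0) * y' * φ (mu 0 l'))) =
      ∑ l', (X k l * X' l l') • (φ (mu k 0) * (y * (φ (mu 0 0) * φ (mu 0 0)) * y') *
        φ (mu 0 l')) := by
    intro l
    rw [Finset.mul_sum, Finset.sum_eq_single l]
    · rw [Finset.mul_sum]
      refine Finset.sum_congr rfl fun l' _ => ?_
      rw [smul_mul_smul_comm, ← PQ h l]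
      simp only [mul_assoc]
    · intro k' _ hk'
      rw [Finset.mul_sum]
      refine Finset.sum_eq_zero fun l' _ => ?_
      rw [smul_mul_smul_comm]
      have e : φ (mu k 0) * y * φ (mu 0 l) * (φ (mu k' 0) * y' * φ (mu 0 l')) =
          φ (mu k 0) * y * (φ (mu 0 l) * φ (mu k' 0)) * (y' * φ (mu 0 l')) := by
        simp only [mul_assoc]
      rw [e, PP0 h _ _ _ _ hk'.symm, mul_zero, zero_mul, smul_zero]
    · intro hl
      exact absurd (Finset.mem_univ l) hl
  rw [Finset.sum_congr rfl fun l _ => h1 l, Finset.sum_comm]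
  refine Finset.sum_congr rfl fun l' _ => ?_
  rw [Matrix.mul_apply, Finset.sum_smul]

lemma G_star (h : OZ φ) (X : M n) (y : B) : star (G φ X y) = G φ (star X) (star y) := by
  unfold G
  rw [star_sum]
  have h1 : ∀ k, star (∑ l, X k l • (φ (mu k 0) * y * φ (mu 0 l))) =
      ∑ l, (star X) l k • (φ (mu l 0) * star y * φ (mu 0 k)) := by
    intro k
    rw [star_sum]
    refine Finset.sum_congr rfl fun l _ => ?_
    rw [star_smul, star_mul, star_mul, ← h.st, ← h.st, star_mu, star_mu, mul_assoc,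
      Matrix.star_apply]
  rw [Finset.sum_congr rfl fun k _ => h1 k, Finset.sum_comm]

/-- crude bound -/
lemma G_crude (φ : M n →ₗ[ℂ] B) : ∃ C : ℝ, 0 ≤ C ∧ ∀ X y, ‖G φ X y‖ ≤ C * ‖X‖ * ‖y‖ := by
  let L : Fin (n + 1) → Fin (n + 1) → (M n →L[ℂ] ℂ) := fun k l =>
    LinearMap.toContinuousLinearMap (Matrix.entryLinearMap ℂ ℂ k l)
  have hL : ∀ k l (X : M n), ‖X k l‖ ≤ ‖L k l‖ * ‖X‖ := fun k l X => (L k l).le_opNorm X
  refine ⟨∑ k, ∑ l, ‖L k l‖ * ‖φ (mu k 0)‖ * ‖φ (mu 0 l)‖,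
    Finset.sum_nonneg fun k _ => Finset.sum_nonneg fun l _ => by positivity, fun X y => ?_⟩
  unfold G
  rw [Finset.sum_mul, Finset.sum_mul]
  refine norm_sum_le_of_le _ fun k _ => ?_
  rw [Finset.sum_mul, Finset.sum_mul]
  refine norm_sum_le_of_le _ fun l _ => ?_
  calc ‖X k l • (φ (mu k 0) * y * φ (mu 0 l))‖
      ≤ ‖X k l‖ * (‖φ (mu k 0)‖ * ‖y‖ * ‖φ (mu 0 l)‖) := by
        rw [norm_smul]
        refine mul_le_mul_of_nonneg_left ?_ (norm_nonneg _)
        exact (norm_mul_le _ _).trans (mul_le_mul_of_nonneg_right (norm_mul_le _ _)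
          (norm_nonneg _))
    _ ≤ (‖L k l‖ * ‖X‖) * (‖φ (mu k 0)‖ * ‖y‖ * ‖φ (mu 0 l)‖) :=
        mul_le_mul_of_nonneg_right (hL k l X) (by positivity)
    _ = _ := by ring

lemma G_pow (h : OZ φ) (X : M n) (w : B) (j : ℕ) : G φ X w ^ (j + 2) =
    G φ (X ^ (j + 2)) (w * φ (mu 0 0) * (φ (mu 0 0) * w * φ (mu 0 0)) ^ j *
      (φ (mu 0 0) * w)) := by
  induction j with
  | zero =>
    rw [zero_add, pow_two, pow_two, G_mul h, pow_zero, mul_one]
    simp only [mul_assoc]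
  | succ j ih =>
    have e : G φ X w ^ (j + 1 + 2) = G φ X w * G φ X w ^ (j + 2) := by
      rw [← pow_succ']
    rw [e, ih, G_mul h]
    have e2 : X ^ (j + 1 + 2) = X * X ^ (j + 2) := by
      rw [← pow_succ']
    rw [e2, pow_succ' (φ (mu 0 0) * w * φ (mu 0 0)) j]
    simp only [mul_assoc]

/-- the norm for self-adjoint elements -/
lemma G_sa (h : OZ φ) (X : M n) (w : B) (hX : star X = X) (hw : star w = w) :
    ‖G φ X w‖ ≤ ‖X‖ * ‖φ (mu 0 0) * w * φ (mu 0 0)‖ := by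
  set Q := φ (mu 0 0) with hQ
  have hsa : IsSelfAdjoint (G φ X w) := by
    show star (G φ X w) = G φ X w
    rw [G_star h, hX, hw]
  obtain ⟨C, hC, hcr⟩ := G_crude φ
  set g := ‖G φ X w‖ with hg
  set x := ‖X‖ with hx
  set q := ‖Q * w * Q‖ with hq
  have hx0 : 0 ≤ x := norm_nonneg _
  have hq0 : 0 ≤ q := norm_nonneg _
  set c := ‖w * Q‖ * ‖Q * w‖ with hc
  have hc0 : 0 ≤ c := by positivity
  -- the bound for the powers
  have hpow : ∀ j : ℕ, ‖G φ X w ^ (j + 2)‖ ≤ C * c * (x ^ (j + 2) * q ^ j) := by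
    intro j
    rw [G_pow h]
    refine (hcr _ _).trans ?_
    have h1 : ‖X ^ (j + 2)‖ ≤ x ^ (j + 2) := norm_pow_le' X (Nat.succ_pos _)
    have h2 : ‖w * Q * (Q * w * Q) ^ j * (Q * w)‖ ≤ ‖w * Q‖ * q ^ j * ‖Q * w‖ := by
      rcases Nat.eq_zero_or_pos j with rfl | hj
      · rw [pow_zero, pow_zero, mul_one, mul_one]
        exact norm_mul_le _ _
      · refine (norm_mul_le _ _).trans (mul_le_mul_of_nonneg_right ?_ (norm_nonneg _))
        refine (norm_mul_le _ _).trans (mul_le_mul_of_nonneg_left ?_ (norm_nonneg _))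
        exact norm_pow_le' _ hj
    calc C * ‖X ^ (j + 2)‖ * ‖w * Q * (Q * w * Q) ^ j * (Q * w)‖
        ≤ C * x ^ (j + 2) * (‖w * Q‖ * q ^ j * ‖Q * w‖) := by
          gcongr
      _ = C * c * (x ^ (j + 2) * q ^ j) := by rw [hc]; ring
  have hroot : ∀ ε : ℝ, 0 < ε → g ≤ (x + ε) * (q + ε) := by
    intro ε hε
    refine root_bound (c := C * c / (q + ε) ^ 2) (by positivity) fun k => ?_
    have h1 := hsa.norm_pow_two_pow (k + 1)
    obtain ⟨j, hj⟩ : ∃ j, 2 ^ (k + 1) = j + 2 := by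
      have h2 : k + 1 < 2 ^ (k + 1) := Nat.lt_two_pow_self
      exact ⟨2 ^ (k + 1) - 2, by omega⟩
    rw [← h1, hj]
    refine (hpow j).trans ?_
    have h3 : C * c / (q + ε) ^ 2 * ((x + ε) * (q + ε)) ^ (j + 2) =
        C * c * ((x + ε) ^ (j + 2) * (q + ε) ^ j) := by
      rw [mul_pow, pow_add (q + ε) j 2]
      have h4 : (q + ε) ≠ 0 := by positivity
      field_simp
    rw [h3]
    have h5 : x ^ (j + 2) ≤ (x + ε) ^ (j + 2) := pow_le_pow_left₀ hx0 (by linarith) _
    have h6 : q ^ j ≤ (q + ε) ^ j := pow_le_pow_left₀ hq0 (by linarith) _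
    refine mul_le_mul_of_nonneg_left ?_ (by positivity)
    exact mul_le_mul h5 h6 (by positivity) (by positivity)
  refine le_of_forall_pos_le_add fun δ hδ => ?_
  set Mx := x + q + 1 with hMx
  have hM0 : 0 < Mx := by positivity
  have hε0 : 0 < min 1 (δ / Mx) := lt_min one_pos (by positivity)
  have h1 := hroot _ hε0
  set ε := min 1 (δ / Mx) with hε
  have h2 : ε ≤ 1 := min_le_left _ _
  have h3 : ε * Mx ≤ δ := by
    have := min_le_right 1 (δ / Mx)
    rwa [← hε, le_div_iff₀ hM0] at this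
  have h4 : (x + ε) * (q + ε) ≤ x * q + ε * Mx := by
    rw [hMx]
    nlinarith
  linarith

/-- the norm -/
lemma G_norm (h : OZ φ) (X : M n) (y : B) :
    ‖G φ X y‖ ≤ ‖X‖ * ‖φ (mu 0 0) * y * φ (mu 0 0)‖ := by
  set Q := φ (mu 0 0) with hQ
  have hQs : star Q = Q := by rw [hQ, ← h.st, star_mu]
  have h1 : ‖G φ X y‖ ^ 2 ≤ (‖X‖ * ‖Q * y * Q‖) ^ 2 := by
    have e1 : star (G φ X y) * G φ X y = G φ (star X * X) (star y * (Q * Q) * y) := by
      rw [G_star h, G_mul h]
    have e2 := G_sa h (star X * X) (star y * (Q * Q) * y) (by rw [star_mul, star_star]) (by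
      simp only [star_mul, star_star, hQs, mul_assoc])
    rw [← e1, CStarRing.norm_star_mul_self] at e2
    have e3 : Q * (star y * (Q * Q) * y) * Q = star (Q * y * Q) * (Q * y * Q) := by
      rw [star_mul, star_mul, hQs]
      simp only [mul_assoc]
    rw [e3, CStarRing.norm_star_mul_self, CStarRing.norm_star_mul_self] at e2
    calc ‖G φ X y‖ ^ 2 = ‖G φ X y‖ * ‖G φ X y‖ := by ring
      _ ≤ ‖X‖ * ‖X‖ * (‖Q * y * Q‖ * ‖Q * y * Q‖) := e2
      _ = _ := by ring
  exact (pow_le_pow_iff_left₀ (norm_nonneg _) (by positivity) (by norm_num)).1 h1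

lemma W_eq (φ : M n →ₗ[ℂ] B) (b : B) : W φ b = G φ 1 b := by
  unfold W G
  refine Finset.sum_congr rfl fun k _ => ?_
  rw [Finset.sum_eq_single k]
  · rw [Matrix.one_apply_eq, one_smul]
  · intro l _ hl
    rw [Matrix.one_apply_ne hl.symm, zero_smul]
  · intro hk
    exact absurd (Finset.mem_univ k) hk

lemma norm_one_le : ‖(1 : M n)‖ ≤ 1 := by
  have h1 : ‖star (1 : M n) * 1‖ = ‖(1 : M n)‖ * ‖(1 : M n)‖ := CStarRing.norm_star_mul_self
  rw [star_one, mul_one] at h1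
  by_contra hcon
  rw [not_le] at hcon
  nlinarith

end

theorem t_AMP : S_AMP := by
  intro n B _ φ h
  set Q := φ (mu 0 0) with hQ
  have hQs : star Q = Q := by rw [hQ, ← h.st, star_mu]
  have hW : ∀ b, ‖W φ b‖ ≤ ‖Q * b * Q‖ := by
    intro b
    rw [W_eq]
    refine (G_norm h 1 b).trans ?_
    have := norm_one_le (n := n)
    have h2 := norm_nonneg (Q * b * Q)
    nlinarith
  refine ⟨hW, ?_, ?_, ?_, ?_⟩
  · intro b b'
    rw [W_eq, W_eq, W_eq, G_mul h, one_mul]
  · intro b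
    rw [W_eq, W_eq, G_star h, star_one]
  · intro b X
    have e1 : W φ b * φ X = G φ X (b * Q) := by
      unfold W G
      rw [Finset.sum_mul]
      refine Finset.sum_congr rfl fun k _ => ?_
      rw [mul_assoc, h.mul, mu_mul, map_sum, Finset.mul_sum, Finset.mul_sum]
      refine Finset.sum_congr rfl fun l _ => ?_
      rw [map_smul, mul_smul_comm, mul_smul_comm, hP h]
      simp only [mul_assoc, hQ]
    have e2 : φ X * W φ b = G φ X (Q * b) := by
      unfold W G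
      rw [Finset.mul_sum, Finset.sum_comm]
      refine Finset.sum_congr rfl fun k _ => ?_
      rw [← mul_assoc, ← mul_assoc, h.mul, mul_mu, map_sum, Finset.mul_sum, Finset.sum_mul,
        Finset.sum_mul]
      refine Finset.sum_congr rfl fun l _ => ?_
      rw [map_smul, mul_smul_comm, smul_mul_assoc, smul_mul_assoc, h.comm, Ph h]
      simp only [mul_assoc, hQ]
    have e3 : W φ b * φ X - φ X * W φ b = G φ X (b * Q - Q * b) := by
      rw [e1, e2]
      unfold G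
      rw [← Finset.sum_sub_distrib]
      refine Finset.sum_congr rfl fun k _ => ?_
      rw [← Finset.sum_sub_distrib]
      refine Finset.sum_congr rfl fun l _ => ?_
      rw [← smul_sub, mul_sub, sub_mul]
    rw [e3]
    refine (G_norm h X _).trans (le_of_eq ?_)
    congr 1
    rw [← norm_neg]
    congr 1
    rw [← hQ]
    noncomm_ring
  · intro b
    have hPk : ∀ k, φ (mu 0 k) * φ 1 = Q * φ (mu 0 k) := fun k => by
      rw [← h.comm, hP h]
    have e1 : W φ b * φ 1 ^ 3 = W φ (b * Q ^ 3) := by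
      unfold W
      rw [Finset.sum_mul]
      refine Finset.sum_congr rfl fun k _ => ?_
      have e : φ (mu 0 k) * φ 1 ^ 3 = Q ^ 3 * φ (mu 0 k) := by
        calc φ (mu 0 k) * φ 1 ^ 3 = ((φ (mu 0 k) * φ 1) * φ 1) * φ 1 := by
              rw [pow_succ, pow_succ, pow_one]
              simp only [mul_assoc]
          _ = (Q * φ (mu 0 k) * φ 1) * φ 1 := by rw [hPk]
          _ = (Q * (Q * φ (mu 0 k))) * φ 1 := by rw [mul_assoc Q, hPk]
          _ = Q * (Q * (Q * φ (mu 0 k))) := by rw [mul_assoc Q, mul_assoc Q, hPk]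
          _ = Q ^ 3 * φ (mu 0 k) := by
              rw [pow_succ, pow_succ, pow_one]
              simp only [mul_assoc]
      rw [mul_assoc, e]
      simp only [mul_assoc]
    have e2 : φ 1 ^ 3 = W φ Q := by
      unfold W
      have e : ∀ k, φ (mu k 0) * Q * φ (mu 0 k) = φ 1 * φ 1 * φ (mu k k) := by
        intro k
        calc φ (mu k 0) * Q * φ (mu 0 k) = φ (mu k 0) * (Q * φ (mu 0 k)) := mul_assoc _ _ _
          _ = φ (mu k 0) * (φ (mu 0 k) * φ 1) := by rw [hPk]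
          _ = (φ (mu k 0) * φ (mu 0 k)) * φ 1 := (mul_assoc _ _ _).symm
          _ = φ 1 * φ (mu k k) * φ 1 := by rw [PP h]
          _ = φ 1 * (φ (mu k k) * φ 1) := mul_assoc _ _ _
          _ = φ 1 * (φ 1 * φ (mu k k)) := by rw [h.comm]
          _ = _ := (mul_assoc _ _ _).symm
      rw [Finset.sum_congr rfl fun k _ => e k, ← Finset.mul_sum, ← map_sum, sum_mu]
      noncomm_ring
    have e3 : (1 - W φ b) * φ 1 ^ 3 = W φ (Q - b * Q ^ 3) := by
      rw [sub_mul, one_mul, e1]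
      nth_rewrite 1 [e2]
      unfold W
      rw [← Finset.sum_sub_distrib]
      refine Finset.sum_congr rfl fun k _ => ?_
      rw [mul_sub, sub_mul]
    rw [e3]
    refine (hW _).trans (le_of_eq ?_)
    congr 1
    noncomm_ring

end Pool.Agent.N400.ND
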